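import Mathlib

set_option autoImplicit false

namespace Pool.Agent.Lib.P37d31dH

variable {r : Fin 4 → ℕ}

/-- The four linear forms on `(ZMod 3)^2`, up to sign. -/
def lam (i : Fin 4) (v : ZMod 3 × ZMod 3) : ZMod 3 := ![v.1, v.2, v.1 + v.2, v.1 - v.2] i

/-- `c x = 2 cos (2 pi x / 3)`. -/
def c (x : ZMod 3) : ℤ := if x = 0 then 2 else -1

/-- The odd function with value `1` at `1`. -/
def s (x : ZMod 3) : ℤ := if x = 0 then 0 else if x = 1 then 1 else -1

theorem c_mul : ∀ x y : ZMod 3, c x * c y = c (x + y) + c (x - y) := by decide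

theorem s_mul : ∀ x y : ZMod 3, s x * c y = s (x + y) + s (x - y) := by decide

theorem c_neg : ∀ x : ZMod 3, c (-x) = c x := by decide

theorem s_neg : ∀ x : ZMod 3, s (-x) = - s x := by decide

theorem c_zero : c 0 = 2 := by decide

theorem s_zero : s 0 = 0 := by decide

theorem lam_sub (i : Fin 4) (v w : ZMod 3 × ZMod 3) : lam i (v - w) = lam i v - lam i w := by
  fin_cases i <;> simp [lam] <;> ring

theorem lam_two (i : Fin 4) (v : ZMod 3 × ZMod 3) : lam i (v + v) = lam i v + lam i v := by
  fin_cases i <;> simp [lam] <;> ring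

theorem lam_zero (i : Fin 4) : lam i 0 = 0 := by
  fin_cases i <;> simp [lam]

/-- The underlying set of the quandle. -/
structure X (r : Fin 4 → ℕ) : Type where
  /-- the base coordinate -/
  bs : ZMod 3 × ZMod 3
  /-- the fibre coordinates -/
  fb : (i : Fin 4) → ZMod (r i)

/-- `X` is a product. -/
def eqvX : ((ZMod 3 × ZMod 3) × ((i : Fin 4) → ZMod (r i))) ≃ X r where
  toFun p := ⟨p.1, p.2⟩
  invFun x := (x.bs, x.fb)
  left_inv _ := rfl
  right_inv _ := rfl

noncomputable instance instFintypeX [∀ i, NeZero (r i)] : Fintype (X r) := Fintype.ofEquiv _ eqvX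

instance instDecEqX : DecidableEq (X r) := eqvX.symm.decidableEq

/-- The quandle operation. -/
def op (x y : X r) : X r :=
  ⟨x.1 + x.1 - y.1, fun i =>
    - y.2 i + (c (lam i y.1 - lam i x.1) : ZMod (r i)) * x.2 i
      + (s (lam i y.1 - lam i x.1) : ZMod (r i))⟩

theorem X_ext {x y : X r} (h1 : x.1 = y.1) (h2 : ∀ i, x.2 i = y.2 i) : x = y := by
  cases x
  cases y
  cases h1
  congr
  funext i
  exact h2 i

theorem op_fst (x y : X r) : (op x y).1 = x.1 + x.1 - y.1 := rfl

theorem op_snd (x y : X r) (i : Fin 4) : (op x y).2 i =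
    - y.2 i + (c (lam i y.1 - lam i x.1) : ZMod (r i)) * x.2 i
      + (s (lam i y.1 - lam i x.1) : ZMod (r i)) := rfl

theorem op_distrib (x y z : X r) : op x (op y z) = op (op x y) (op x z) := by
  apply X_ext
  · simp only [op_fst]
    abel
  · intro i
    simp only [op_snd, op_fst, lam_sub, lam_two]
    set a := lam i x.1
    set b := lam i y.1
    set d := lam i z.1
    have e1 : (a + a - d - (a + a - b)) = b - d := by ring
    have e2 : (b + b - d - a) = (b - d) + (b - a) := by ring
    have e3 : (d - b) = - (b - d) := by ring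
    have e4 : d - a = (b - a) - (b - d) := by ring
    rw [e1, e2, e3, c_neg, s_neg]
    have h1 : ((c (b - d + (b - a)) : ℤ) : ZMod (r i)) + (c (d - a) : ℤ)
        = (c (b - a) : ℤ) * (c (b - d) : ℤ) := by
      rw [e4]
      have := c_mul (b - a) (b - d)
      rw [add_comm (b - d) (b - a)]
      rw [← Int.cast_add, ← Int.cast_mul, this]
    have h2 : ((s (b - d + (b - a)) : ℤ) : ZMod (r i)) + (s (d - a) : ℤ)
        = (s (b - a) : ℤ) * (c (b - d) : ℤ) := by
      rw [e4]
      have := s_mul (b - a) (b - d)
      rw [add_comm (b - d) (b - a)]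
      rw [← Int.cast_add, ← Int.cast_mul, this]
    push_cast
    linear_combination (x.2 i) * h1 + h2

/-- The inverse operation. -/
def iop (x y : X r) : X r :=
  ⟨x.1 + x.1 - y.1, fun i =>
    - y.2 i + (c (lam i y.1 - lam i x.1) : ZMod (r i)) * x.2 i
      - (s (lam i y.1 - lam i x.1) : ZMod (r i))⟩

theorem iop_fst (x y : X r) : (iop x y).1 = x.1 + x.1 - y.1 := rfl

theorem iop_snd (x y : X r) (i : Fin 4) : (iop x y).2 i =
    - y.2 i + (c (lam i y.1 - lam i x.1) : ZMod (r i)) * x.2 i
      - (s (lam i y.1 - lam i x.1) : ZMod (r i)) := rfl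

theorem iop_op (x y : X r) : iop x (op x y) = y := by
  apply X_ext
  · simp only [op_fst, iop_fst]
    abel
  · intro i
    simp only [op_snd, op_fst, iop_snd, lam_sub, lam_two]
    have e : lam i x.1 + lam i x.1 - lam i y.1 - lam i x.1 = -(lam i y.1 - lam i x.1) := by ring
    rw [e, c_neg, s_neg]
    push_cast
    ring

theorem op_iop (x y : X r) : op x (iop x y) = y := by
  apply X_ext
  · simp only [op_fst, iop_fst]
    abel
  · intro i
    simp only [op_snd, iop_fst, iop_snd, lam_sub, lam_two]
    have e : lam i x.1 + lam i x.1 - lam i y.1 - lam i x.1 = -(lam i y.1 - lam i x.1) := by ring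
    rw [e, c_neg, s_neg]
    push_cast
    ring

theorem op_self (x : X r) : op x x = x := by
  apply X_ext
  · simp only [op_fst]
    abel
  · intro i
    simp only [op_snd, sub_self, c_zero, s_zero]
    push_cast
    ring

instance instQuandleX : Quandle (X r) where
  act := op
  self_distrib := by
    intro x y z
    exact op_distrib x y z
  invAct := iop
  left_inv := iop_op
  right_inv := op_iop
  fix := by
    intro x
    exact op_self x

theorem act_eq (x y : X r) : Shelf.act x y = op x y := rfl


end Pool.Agent.Lib.P37d31dH
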