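import Mathlib
import Pool.Agent.Lib.P37d31dH.Base

set_option autoImplicit false

namespace Pool.Agent.Lib.P37d31dH

variable {r : Fin 4 → ℕ}

/-- Every class modulo an odd number is twice another one. -/
theorem exists_half (hodd : ∀ i, Odd (r i)) (i : Fin 4) (a : ZMod (r i)) :
    ∃ b : ZMod (r i), b + b = a := by
  obtain ⟨k, hk⟩ := hodd i
  refine ⟨((k + 1 : ℕ) : ZMod (r i)) * a, ?_⟩
  have h1 : ((r i : ℕ) : ZMod (r i)) = 0 := by simp
  have h2 : ((2 * k + 1 : ℕ) : ZMod (r i)) = 0 := by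
    have h3 : ((2 * k + 1 : ℕ) : ZMod (r i)) = ((r i : ℕ) : ZMod (r i)) := congrArg Nat.cast hk.symm
    rw [h3, h1]
  push_cast at h2 ⊢
  linear_combination a * h2

theorem half3 (a : ZMod 3) : ∃ b : ZMod 3, b + b = a := by
  revert a
  decide

/-- The quandle is connected: first move the base point, then move inside the fibre. -/
theorem connected (hodd : ∀ i, Odd (r i)) (a b : X r) :
    ∃ g ∈ Subgroup.closure (Set.range (Rack.act' : X r → Equiv.Perm (X r))), g a = b := by
  obtain ⟨m1, hm1⟩ := half3 (a.1.1 + b.1.1)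
  obtain ⟨m2, hm2⟩ := half3 (a.1.2 + b.1.2)
  let m : X r := ⟨(m1, m2), fun _ => 0⟩
  let g1 : Equiv.Perm (X r) := Rack.act' m
  have hg1 : g1 ∈ Subgroup.closure (Set.range (Rack.act' : X r → Equiv.Perm (X r))) :=
    Subgroup.subset_closure ⟨m, rfl⟩
  have hbase : (g1 a).1 = b.1 := by
    change (m1, m2) + (m1, m2) - a.1 = b.1
    apply Prod.ext
    · change m1 + m1 - a.1.1 = b.1.1
      rw [hm1]
      ring
    · change m2 + m2 - a.1.2 = b.1.2
      rw [hm2]
      ring
  choose hf hhf using fun i => exists_half hodd i (b.2 i - (g1 a).2 i)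
  let u : X r := ⟨b.1, fun i => hf i⟩
  let v : X r := ⟨b.1, fun _ => 0⟩
  let g2 : Equiv.Perm (X r) := Rack.act' u * (Rack.act' v)⁻¹
  have hg2 : g2 ∈ Subgroup.closure (Set.range (Rack.act' : X r → Equiv.Perm (X r))) :=
    Subgroup.mul_mem _ (Subgroup.subset_closure ⟨u, rfl⟩)
      (Subgroup.inv_mem _ (Subgroup.subset_closure ⟨v, rfl⟩))
  refine ⟨g2 * g1, Subgroup.mul_mem _ hg2 hg1, ?_⟩
  change op u (iop v (g1 a)) = b
  apply X_ext
  · rw [op_fst, iop_fst, hbase]
    change b.1 + b.1 - (b.1 + b.1 - b.1) = b.1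
    abel
  · intro i
    rw [op_snd, iop_snd, iop_fst, hbase]
    have e1 : lam i (v.1 + v.1 - b.1) - lam i u.1 = 0 := by
      change lam i (b.1 + b.1 - b.1) - lam i b.1 = 0
      rw [lam_sub, lam_two]
      ring
    have e2 : lam i b.1 - lam i v.1 = 0 := by
      change lam i b.1 - lam i b.1 = 0
      ring
    rw [e1, e2, c_zero, s_zero]
    change -(-(g1 a).2 i + ((2 : ℤ) : ZMod (r i)) * 0 - ((0 : ℤ) : ZMod (r i)))
      + ((2 : ℤ) : ZMod (r i)) * hf i + ((0 : ℤ) : ZMod (r i)) = b.2 i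
    have := hhf i
    push_cast
    linear_combination this

/-- The base point. -/
def x0 : X r := ⟨0, fun _ => 0⟩

theorem op_x0_twice (y : X r) : op x0 (op x0 y) =
    ⟨y.1, fun i => y.2 i - ((2 * s (lam i y.1) : ℤ) : ZMod (r i))⟩ := by
  apply X_ext
  · simp only [op_fst]
    change (0 : ZMod 3 × ZMod 3) + 0 - (0 + 0 - y.1) = y.1
    abel
  · intro i
    simp only [op_snd, op_fst]
    change -(-y.2 i + (c (lam i y.1 - lam i 0) : ZMod (r i)) * 0 + (s (lam i y.1 - lam i 0) : ZMod (r i)))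
      + (c (lam i (0 + 0 - y.1) - lam i 0) : ZMod (r i)) * 0
      + (s (lam i (0 + 0 - y.1) - lam i 0) : ZMod (r i)) = y.2 i - ((2 * s (lam i y.1) : ℤ) : ZMod (r i))
    rw [lam_sub, lam_two, lam_zero]
    have e1 : lam i y.1 - 0 = lam i y.1 := by ring
    have e2 : (0 : ZMod 3) + 0 - lam i y.1 - 0 = -(lam i y.1) := by ring
    rw [e1, e2, s_neg]
    push_cast
    ring

/-- The even iterates of the translation by `x0`. -/
theorem iterate_even (k : ℕ) (y : X r) : (Shelf.act x0)^[2 * k] y =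
    ⟨y.1, fun i => y.2 i - ((k * (2 * s (lam i y.1)) : ℤ) : ZMod (r i))⟩ := by
  induction k with
  | zero =>
    apply X_ext
    · rfl
    · intro i
      simp
  | succ n ih =>
    rw [show 2 * (n + 1) = 2 + 2 * n by ring, Function.iterate_add_apply, ih]
    change op x0 (op x0 _) = _
    rw [op_x0_twice]
    apply X_ext
    · rfl
    · intro i
      push_cast
      ring

/-- The product of the moduli other than `r i`. -/
def M (r : Fin 4 → ℕ) (i : Fin 4) : ℕ := ∏ j ∈ Finset.univ.erase i, r j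

theorem exists_lam : ∀ v : ZMod 3 × ZMod 3, ∃ i : Fin 4, lam i v = 0 := by decide

theorem lam_ne : ∀ v : ZMod 3 × ZMod 3, v ≠ 0 → ∀ i j : Fin 4, lam i v = 0 → j ≠ i →
    lam j v ≠ 0 := by decide

theorem exists_zero_point : ∀ i : Fin 4, ∃ v : ZMod 3 × ZMod 3, v ≠ 0 ∧ lam i v = 0 := by decide

theorem s_ne : ∀ x : ZMod 3, x ≠ 0 → s x = 1 ∨ s x = -1 := by decide

theorem period_dvd (z : X r) (i : Fin 4) (hz : lam i z.1 = 0) :
    Function.minimalPeriod (Shelf.act x0) z ∣ 2 * M r i := by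
  rw [← Function.isPeriodicPt_iff_minimalPeriod_dvd]
  change (Shelf.act x0)^[2 * M r i] z = z
  rw [iterate_even]
  apply X_ext
  · rfl
  · intro j
    change z.2 j - ((M r i * (2 * s (lam j z.1)) : ℤ) : ZMod (r j)) = z.2 j
    by_cases hij : i = j
    · subst hij
      rw [hz, s_zero]
      simp
    · obtain ⟨k, hk⟩ : r j ∣ M r i :=
        Finset.dvd_prod_of_mem r (Finset.mem_erase.mpr ⟨Ne.symm hij, Finset.mem_univ j⟩)
      have : ((M r i : ℕ) : ZMod (r j)) = 0 := by
        rw [hk]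
        push_cast
        simp
      push_cast
      rw [this]
      ring

theorem neg_ne : ∀ v : ZMod 3 × ZMod 3, v ≠ 0 → -v ≠ v := by decide

/-- The exact period of a point outside the central fibre. -/
theorem period_eq (hodd : ∀ i, Odd (r i)) (hco : ∀ i j, i ≠ j → Nat.Coprime (r i) (r j))
    (z : X r) (hz0 : z.1 ≠ 0) (i : Fin 4) (hz : lam i z.1 = 0) :
    Function.minimalPeriod (Shelf.act x0) z = 2 * M r i := by
  apply Nat.dvd_antisymm (period_dvd z i hz)
  set m := Function.minimalPeriod (Shelf.act (x0 : X r)) z with hm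
  have hper : (Shelf.act (x0 : X r))^[m] z = z := Function.iterate_minimalPeriod
  obtain ⟨k, hk | hk⟩ := Nat.even_or_odd' m
  · rw [hk] at hper ⊢
    apply Nat.mul_dvd_mul_left
    rw [iterate_even] at hper
    unfold M
    apply Finset.prod_dvd_of_isRelPrime
    · intro a _ b _ hab
      exact Nat.coprime_iff_isRelPrime.mp (hco a b hab)
    · intro j hj
      have hji : j ≠ i := (Finset.mem_erase.mp hj).1
      have h1 := congrFun (congrArg X.fb hper) j
      change z.2 j - ((k * (2 * s (lam j z.1)) : ℤ) : ZMod (r j)) = z.2 j at h1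
      have h2 : ((k * (2 * s (lam j z.1)) : ℤ) : ZMod (r j)) = 0 := by linear_combination -h1
      have h3 : ((2 * k : ℕ) : ZMod (r j)) = 0 := by
        rcases s_ne _ (lam_ne z.1 hz0 i j hz hji) with h4 | h4
        · rw [h4] at h2
          push_cast at h2 ⊢
          linear_combination h2
        · rw [h4] at h2
          push_cast at h2 ⊢
          linear_combination -h2
      rw [ZMod.natCast_eq_zero_iff] at h3
      exact (Nat.Coprime.dvd_of_dvd_mul_left
        (Nat.coprime_two_right.mpr (hodd j)) h3)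
  · exfalso
    rw [hk, Function.iterate_succ_apply', iterate_even] at hper
    have h1 := congrArg X.bs hper
    change (0 : ZMod 3 × ZMod 3) + 0 - z.1 = z.1 at h1
    apply neg_ne z.1 hz0
    have h2 : (0 : ZMod 3 × ZMod 3) + 0 - z.1 = - z.1 := by abel
    rw [← h2]
    exact h1

/-- The periods in the central fibre. -/
theorem period_zero (z : X r) (hz : z.1 = 0) :
    Function.minimalPeriod (Shelf.act (x0 : X r)) z ∣ 2 := by
  rw [← Function.isPeriodicPt_iff_minimalPeriod_dvd]
  change (Shelf.act (x0 : X r))^[2 * 1] z = z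
  rw [iterate_even]
  apply X_ext
  · rfl
  · intro i
    change z.2 i - (((1 : ℕ) * (2 * s (lam i z.1)) : ℤ) : ZMod (r i)) = z.2 i
    rw [hz, lam_zero, s_zero]
    simp

theorem period_x0 : Function.minimalPeriod (Shelf.act (x0 : X r)) x0 = 1 := by
  rw [Function.minimalPeriod_eq_one_iff_isFixedPt]
  exact op_self x0

theorem exists_period_two (hodd : ∀ i, Odd (r i)) (h1 : ∀ i, 1 < r i) :
    ∃ z : X r, Function.minimalPeriod (Shelf.act (x0 : X r)) z = 2 := by
  let z : X r := ⟨0, fun _ => 1⟩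
  refine ⟨z, ?_⟩
  have hd := period_zero z rfl
  rcases (Nat.dvd_prime Nat.prime_two).mp hd with h | h
  · exfalso
    rw [Function.minimalPeriod_eq_one_iff_isFixedPt] at h
    have h2 : op x0 z = z := h
    have h3 := congrFun (congrArg X.fb h2) 0
    rw [op_snd] at h3
    change - (1 : ZMod (r 0)) + (c (lam 0 0 - lam 0 0) : ZMod (r 0)) * 0
      + (s (lam 0 0 - lam 0 0) : ZMod (r 0)) = 1 at h3
    rw [sub_self, s_zero] at h3
    have h4 : ((2 : ℕ) : ZMod (r 0)) = 0 := by
      push_cast at h3 ⊢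
      linear_combination -h3
    rw [ZMod.natCast_eq_zero_iff] at h4
    obtain ⟨k, hk⟩ := hodd 0
    have := Nat.le_of_dvd two_pos h4
    have := h1 0
    omega
  · exact h

theorem card_X [∀ i, NeZero (r i)] : Fintype.card (X r) = 9 * ∏ i, r i := by
  rw [← Fintype.card_congr eqvX, Fintype.card_prod, Fintype.card_prod, Fintype.card_pi]
  simp [ZMod.card]

end Pool.Agent.Lib.P37d31dH
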